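import Pool.Agent.H4.FV.OddT

set_option autoImplicit false
set_option linter.unusedVariables false
set_option linter.unusedSectionVars false

/-! Project FV/ODD (helper4), task ODD-EASY: `S_easy`. -/

namespace Pool.Agent.H585.FV

open Pool.Agent.H4.FV.Odd
open Pool.Agent.R620.GG

section

variable {p : ℕ} {Γ : ℕ → ℕ → Prop}

/-- coordinates -/
noncomputable def ev (b : Bs Γ) : SA p Γ →ₗ[ZMod p] ZMod p where
  toFun := fun x => x.1 b
  map_add' := fun x y => rfl
  map_smul' := fun c x => rfl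

theorem add_apply (x y : SA p Γ) (b : Bs Γ) : (x + y).1 b = x.1 b + y.1 b := rfl

theorem lc_apply {ι : Type} [Fintype ι] (u : ι → SA p Γ) (c : ι → ZMod p) (b : Bs Γ) :
    (lcA p u c).1 b = ∑ i, c i * (u i).1 b := by
  have h := map_sum (ev (p := p) b) (fun i => c i • u i) Finset.univ
  refine Eq.trans h (Finset.sum_congr rfl fun i _ => ?_)
  rfl

theorem rel_of_mul (x y : SA p Γ) (h : x * y = 0) :
    IsRel (p := p) (Γ := Γ) fun b b' => x.1 b * y.1 b' - x.1 b' * y.1 b := by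
  have h2 : (x * y).2 = 0 := by rw [h]; rfl
  rw [mul_snd, Submodule.mkQ_apply, Submodule.Quotient.mk_eq_zero, mem_Kr] at h2
  exact h2

theorem ct_iff (hct : T_ct p Γ) (x : SA p Γ) : Ct x ↔ ∀ b, x.1 b = 0 := by
  rw [hct x]
  constructor
  · intro h b
    rw [h]
    rfl
  · intro h
    ext b
    exact h b

theorem blk [Fact p.Prime] (hct : T_ct p Γ) {k : ℕ} (e : Fin k → Bs Γ) (u : Fin k → SA p Γ)
    (hu : ∀ j b, (∀ i, b ≠ e i) → (u j).1 b = 0) (hi : IndA p u) (x : SA p Γ)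
    (hx : ∀ b, (∀ i, b ≠ e i) → x.1 b = 0) : InSA p u x := by
  have li : LinearIndependent (ZMod p) (fun j => fun i => (u j).1 (e i) : Fin k → Fin k → ZMod p) := by
    rw [Fintype.linearIndependent_iff]
    intro c hc
    by_contra hne
    push Not at hne
    apply hi c hne
    rw [ct_iff hct]
    intro b
    rw [lc_apply]
    by_cases hb : ∃ i, b = e i
    · obtain ⟨i, rfl⟩ := hb
      have h1 := congrFun hc i
      rw [Finset.sum_apply] at h1
      exact h1
    · push Not at hb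
      exact Finset.sum_eq_zero fun j _ => by rw [hu j b hb, mul_zero]
  have sp := li.span_eq_top_of_card_eq_finrank' (by simp)
  have hm : (fun i => -(x.1 (e i)) : Fin k → ZMod p) ∈
      Submodule.span (ZMod p) (Set.range (fun j => fun i => (u j).1 (e i) : Fin k → Fin k → ZMod p)) := by
    rw [sp]; trivial
  rw [Submodule.mem_span_range_iff_exists_fun] at hm
  obtain ⟨c, hc⟩ := hm
  refine ⟨c, ?_⟩
  rw [ct_iff hct]
  intro b
  rw [add_apply, lc_apply]
  by_cases hb : ∃ i, b = e i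
  · obtain ⟨i, rfl⟩ := hb
    have h1 := congrFun hc i
    rw [Finset.sum_apply] at h1
    have h2 : ∑ j, c j * (u j).1 (e i) = -(x.1 (e i)) := h1
    rw [h2, add_neg_cancel]
  · push Not at hb
    rw [hx b hb, zero_add]
    exact Finset.sum_eq_zero fun j _ => by rw [hu j b hb, mul_zero]

theorem fcen [Fact p.Prime] (hct : T_ct p Γ) (htri : T_tri p Γ) : FcenA p (SA p Γ) := by
  intro v y z x ht hx
  obtain ⟨hind, n, hv, hyz⟩ := (htri v y z).1 ht
  have hc : v.1 (Sum.inl (n, 0)) ≠ 0 := by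
    intro h0
    apply hind ![1, 0, 0] ⟨0, by simp⟩
    rw [ct_iff hct]
    intro b
    rw [lc_apply, Fin.sum_univ_three]
    by_cases hb : b = Sum.inl (n, 0)
    · subst hb; simp [h0]
    · simp [hv b hb]
  have N := rel_of_mul v x hx
  have key : ∀ b, (∀ i, b ≠ Sum.inl (n, i)) → x.1 b = 0 := by
    intro b hb
    have hvb : v.1 b = 0 := hv b (hb 0)
    have hq : ∀ r : {q : ℕ × ℕ // Eo Γ q.1 q.2} × Fin 2, v.1 (Sum.inr r) = 0 := fun r =>
      hv _ (by simp)
    rcases b with ⟨m, i⟩ | r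
    · have hmn : m ≠ n := by
        intro h
        subst h
        exact hb i rfl
      by_cases hi : i = 0
      · subst hi
        rcases lt_or_gt_of_ne hmn with hlt | hlt
        · by_cases hE : Eo Γ m n
          · have h1 := N.e ⟨(m, n), hE⟩
            simp only [hq, hvb, zero_mul, sub_zero, zero_sub, neg_eq_zero] at h1
            exact (mul_eq_zero.1 h1).resolve_left hc
          · have h1 := N.vv m n hlt.le hE
            simp only [hvb, zero_mul, zero_sub, neg_eq_zero] at h1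
            exact (mul_eq_zero.1 h1).resolve_left hc
        · by_cases hE : Eo Γ n m
          · have h1 := N.e ⟨(n, m), hE⟩
            simp only [hq, hvb, zero_mul, sub_zero] at h1
            exact (mul_eq_zero.1 h1).resolve_left hc
          · have h1 := N.vv n m hlt.le hE
            simp only [hvb, zero_mul, sub_zero] at h1
            exact (mul_eq_zero.1 h1).resolve_left hc
      · have h1 := N.v' n m i hi hmn.symm
        simp only [hvb, zero_mul, sub_zero] at h1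
        exact (mul_eq_zero.1 h1).resolve_left hc
    · have h1 := N.ve (n, 0) r
      simp only [hvb, zero_mul, sub_zero] at h1
      exact (mul_eq_zero.1 h1).resolve_left hc
  refine blk hct (fun i => Sum.inl (n, i)) _ ?_ hind x key
  intro j b hb
  fin_cases j
  · exact hv b (hb 0)
  · exact (hyz b hb).1
  · exact (hyz b hb).2

theorem ind2 {v w a b : SA p Γ} (h : IndA p ![v, w, a, b]) : IndA p ![a, b] := by
  intro c hc hC
  refine h ![0, 0, c 0, c 1] ?_ ?_
  · obtain ⟨i, hi⟩ := hc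
    fin_cases i
    · exact ⟨2, hi⟩
    · exact ⟨3, hi⟩
  · have e : lcA p ![v, w, a, b] ![0, 0, c 0, c 1] = lcA p ![a, b] c := by
      unfold lcA
      rw [Fin.sum_univ_four, Fin.sum_univ_two]
      simp
    rw [e]
    exact hC

theorem fwit [Fact p.Prime] (hct : T_ct p Γ) (hqd : T_qd p Γ) : FwitA p (SA p Γ) := by
  intro v w a b a' b' h h'
  have hind : IndA p ![a, b] := ind2 h.2.2.1
  obtain ⟨q, v0, w0, hx, hx0, hy, hy0, hab, hor⟩ := (hqd v w a b).1 h
  obtain ⟨q', v1, w1, hx', hx0', hy', hy0', hab', hor'⟩ := (hqd v w a' b').1 h'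
  have e1 : v0 = v1 := by
    by_contra hne
    exact hx0 (hx' _ (by simpa using hne))
  have e2 : w0 = w1 := by
    by_contra hne
    exact hy0 (hy' _ (by simpa using hne))
  subst e1
  subst e2
  have hq : q = q' := by
    have l1 := q.2.1
    have l2 := q'.2.1
    apply Subtype.ext
    rcases hor with ⟨a1, a2, -⟩ | ⟨a1, a2, -⟩ <;> rcases hor' with ⟨b1, b2, -⟩ | ⟨b1, b2, -⟩
    · exact Prod.ext (a1.symm.trans b1) (a2.symm.trans b2)
    · omega
    · omega
    · exact Prod.ext (a2.symm.trans b2) (a1.symm.trans b1)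
  subst hq
  have hu : ∀ (j : Fin 2) (b₁ : Bs Γ), (∀ i : Fin 2, b₁ ≠ Sum.inr (q, i)) → (![a, b] j).1 b₁ = 0 := by
    intro j b₁ hb
    fin_cases j
    · exact (hab b₁ hb).1
    · exact (hab b₁ hb).2
  exact ⟨blk hct (fun i => Sum.inr (q, i)) _ hu hind a' fun b₁ hb => (hab' b₁ hb).1,
    blk hct (fun i => Sum.inr (q, i)) _ hu hind b' fun b₁ hb => (hab' b₁ hb).2⟩

/-- basis elements -/
noncomputable def bs (b : Bs Γ) (c : ZMod p) : SA p Γ := (Finsupp.single b c, 0)

theorem bs_same (b : Bs Γ) (c : ZMod p) : (bs b c : SA p Γ).1 b = c := Finsupp.single_eq_same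

theorem bs_ne {b b' : Bs Γ} (h : b' ≠ b) (c : ZMod p) : (bs b c : SA p Γ).1 b' = 0 :=
  Finsupp.single_eq_of_ne h

theorem sv_eq (v : ℕ) : (sv v : SA p Γ) = bs (Sum.inl (v, 0)) 1 := rfl

theorem ind_bs [Fact p.Prime] (hct : T_ct p Γ) {k : ℕ} (e : Fin k → Bs Γ) (he : Function.Injective e)
    (c : Fin k → ZMod p) (hc : ∀ i, c i ≠ 0) (u : Fin k → SA p Γ) (hu : ∀ i, u i = bs (e i) (c i)) :
    IndA p u := by
  intro d ⟨i, hi⟩ hC
  rw [ct_iff hct] at hC
  have h := hC (e i)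
  rw [lc_apply, Finset.sum_eq_single i] at h
  · rw [hu, bs_same] at h
    exact (mul_ne_zero hi (hc i)) h
  · intro j _ hj
    rw [hu, bs_ne, mul_zero]
    intro h1
    exact hj (he h1).symm
  · intro h1
    exact absurd (Finset.mem_univ i) h1

theorem vt_sv [Fact p.Prime] (hct : T_ct p Γ) (htri : T_tri p Γ) (v : ℕ) : VtA p (sv v : SA p Γ) := by
  refine ⟨bs (Sum.inl (v, 1)) 1, bs (Sum.inl (v, 2)) 1, (htri _ _ _).2 ⟨?_, v, ?_, ?_⟩⟩
  · refine ind_bs hct (fun i => Sum.inl (v, i)) ?_ (fun _ => 1) (fun _ => one_ne_zero) _ ?_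
    · intro i j h
      simpa using h
    · intro i
      fin_cases i <;> rfl
  · intro b hb
    rw [sv_eq, bs_ne hb]
  · intro b hb
    exact ⟨bs_ne (hb 1) 1, bs_ne (hb 2) 1⟩

theorem nev [Fact p.Prime] (hct : T_ct p Γ) (v w : ℕ) (h : v ≠ w) : ¬ EvA p (sv v : SA p Γ) (sv w) := by
  rintro ⟨c, hc⟩
  rw [ct_iff hct] at hc
  have h1 := hc (Sum.inl (w, 0))
  rw [add_apply, lc_apply, Fin.sum_univ_one, sv_eq, sv_eq, bs_same, bs_ne (by simpa using h.symm), mul_zero,
    add_zero] at h1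
  exact one_ne_zero h1

theorem ev_sv [Fact p.Prime] (hct : T_ct p Γ) (htri : T_tri p Γ) (x : SA p Γ) (h : VtA p x) :
    ∃ v : ℕ, EvA p (sv v) x := by
  obtain ⟨y, z, h⟩ := h
  obtain ⟨-, n, hx, -⟩ := (htri x y z).1 h
  refine ⟨n, fun _ => -(x.1 (Sum.inl (n, 0))), ?_⟩
  rw [ct_iff hct]
  intro b
  rw [add_apply, lc_apply, Fin.sum_univ_one, sv_eq]
  by_cases hb : b = Sum.inl (n, 0)
  · subst hb
    rw [bs_same]
    ring
  · rw [bs_ne hb, hx b hb]
    ring

theorem adj_sv [Fact p.Prime] (hΓ : ∀ v w, Γ v w → Γ w v) (hΓ' : ∀ v, ¬ Γ v v) (hct : T_ct p Γ)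
    (htri : T_tri p Γ) (hqd : T_qd p Γ) (v w : ℕ) : AjA p (sv v : SA p Γ) (sv w) ↔ Γ v w := by
  constructor
  · rintro ⟨a, b, h⟩
    obtain ⟨q, v0, w0, hx, hx0, hy, hy0, hab, hor⟩ := (hqd _ _ a b).1 h
    have e1 : v = v0 := by
      by_contra hne
      have h1 := hx (Sum.inl (v, 0)) (by simpa using hne)
      rw [sv_eq, bs_same] at h1
      exact one_ne_zero h1
    have e2 : w = w0 := by
      by_contra hne
      have h1 := hy (Sum.inl (w, 0)) (by simpa using hne)
      rw [sv_eq, bs_same] at h1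
      exact one_ne_zero h1
    subst e1
    subst e2
    rcases hor with ⟨a1, a2, -⟩ | ⟨a1, a2, -⟩
    · rw [a1, a2]
      exact q.2.2
    · rw [a1, a2]
      exact hΓ _ _ q.2.2
  · intro h
    have hne : v ≠ w := by
      rintro rfl
      exact hΓ' v h
    rcases lt_or_gt_of_ne hne with hlt | hlt
    · have hE : Eo Γ v w := ⟨hlt, h⟩
      refine ⟨bs (Sum.inr (⟨(v, w), hE⟩, 0)) 1, bs (Sum.inr (⟨(v, w), hE⟩, 1)) 1, (hqd _ _ _ _).2
        ⟨⟨(v, w), hE⟩, v, w, ?_, ?_, ?_, ?_, ?_, Or.inl ⟨rfl, rfl, ?_⟩⟩⟩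
      · intro b hb
        rw [sv_eq, bs_ne hb]
      · rw [sv_eq, bs_same]
        exact one_ne_zero
      · intro b hb
        rw [sv_eq, bs_ne hb]
      · rw [sv_eq, bs_same]
        exact one_ne_zero
      · intro b hb
        exact ⟨bs_ne (hb 0) 1, bs_ne (hb 1) 1⟩
      · rw [sv_eq, sv_eq, bs_same, bs_same, bs_same, bs_same, bs_ne (by simp)]
        ring
    · have hE : Eo Γ w v := ⟨hlt, hΓ _ _ h⟩
      refine ⟨bs (Sum.inr (⟨(w, v), hE⟩, 0)) (-1), bs (Sum.inr (⟨(w, v), hE⟩, 1)) 1, (hqd _ _ _ _).2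
        ⟨⟨(w, v), hE⟩, v, w, ?_, ?_, ?_, ?_, ?_, Or.inr ⟨rfl, rfl, ?_⟩⟩⟩
      · intro b hb
        rw [sv_eq, bs_ne hb]
      · rw [sv_eq, bs_same]
        exact one_ne_zero
      · intro b hb
        rw [sv_eq, bs_ne hb]
      · rw [sv_eq, bs_same]
        exact one_ne_zero
      · intro b hb
        exact ⟨bs_ne (hb 0) _, bs_ne (hb 1) 1⟩
      · rw [sv_eq, sv_eq, bs_same, bs_same, bs_same, bs_same, bs_ne (by simp)]
        ring

end

theorem easy : S_easy := by
  intro p _ hp Γ hΓ hΓ' hct htri hqd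
  refine ⟨fcen hct htri, fwit hct hqd, ?_, vt_sv hct htri, nev hct, ev_sv hct htri,
    adj_sv hΓ hΓ' hct htri hqd⟩
  intro n
  refine ⟨fun i => sv i.val, fun i => vt_sv hct htri _, fun i j hij => nev hct _ _ ?_⟩
  intro h
  exact hij (Fin.ext h)

end Pool.Agent.H585.FV
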